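import Mathlib
import Pool.Agent.Run7.h420.TM.Stm

set_option autoImplicit false

/-! # Pieces `CONT` and `PAIR` of the project `TM` (`MP_45e9b0_lc`) -/

namespace Pool.Agent.Run7.h96.TM

open MeasureTheory Filter Topology Set
open Pool.Agent.Run7.h420.TM

theorem t_PAIR : S_CHAIN → S_SHEAR → S_PAIR := by
  intro hC hS G _ _ _ hT L _ _ w hw
  obtain ⟨R, hR, heq, h0, h1⟩ := hS G
  obtain ⟨φ, hφ, hφ'⟩ := hC G hT L w hw
  refine ⟨fun p => φ (R p), fun l => ?_, fun g => ?_⟩
  · exact hR.measurable (hφ l)
  · have h2 := hR.quasiMeasurePreserving.ae (hφ' g)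
    filter_upwards [h2] with p hp
    rw [h0, h1, ← heq] at hp
    exact hp

theorem t_CONT : S_TAN → S_SD → S_QPRES → S_PROBS → S_CONT := by
  intro hT hS hQ hP G L _ _ _ h t₀ hh
  have i1 := hP.1
  have i2 := hP.2
  have hX : IsProbabilityMeasure (muX G) :=
    (inferInstance : IsProbabilityMeasure
      (Measure.infinitePi (fun _ : G => (volume : Measure UnitAddCircle))))
  have hY : IsProbabilityMeasure (muY G) :=
    (inferInstance : IsProbabilityMeasure
      (Measure.infinitePi (fun _ : G => ((volume : Measure ℝ).restrict (Set.Ioc (0 : ℝ) 1)))))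
  have hsum : Summable fun l : L => 2 * (muX G).real {x | h x = l} := by
    refine Summable.mul_left _ ?_
    refine ENNReal.summable_toReal ?_
    rw [← measure_iUnion ?_ hh]
    · exact measure_ne_top _ _
    · intro a b hab
      rw [Function.onFun, Set.disjoint_left]
      intro x hx hx'
      exact hab (hx.symm.trans hx')
  have hle : ∀ (t : ℝ) (l : L), ((muX G).prod (muY G)).real
      (symmDiff (qt G t ⁻¹' {x | h x = l}) (qt G t₀ ⁻¹' {x | h x = l}))
      ≤ 2 * (muX G).real {x | h x = l} := by
    intro t l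
    have h1 : ∀ s : ℝ, ((muX G).prod (muY G)).real (qt G s ⁻¹' {x | h x = l})
        = (muX G).real {x | h x = l} := by
      intro s
      rw [measureReal_def, measureReal_def,
        (hQ G s).measure_preimage (hh l).nullMeasurableSet]
    calc ((muX G).prod (muY G)).real
          (symmDiff (qt G t ⁻¹' {x | h x = l}) (qt G t₀ ⁻¹' {x | h x = l}))
        ≤ ((muX G).prod (muY G)).real
          ((qt G t ⁻¹' {x | h x = l}) ∪ (qt G t₀ ⁻¹' {x | h x = l})) :=
          measureReal_mono Set.symmDiff_subset_union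
      _ ≤ _ := measureReal_union_le _ _
      _ = 2 * (muX G).real {x | h x = l} := by
          rw [h1, h1]
          ring
  have hT' := hT _ _ _ ((muX G).prod (muY G)) (𝓝 t₀)
    (fun t l => symmDiff (qt G t ⁻¹' {x | h x = l}) (qt G t₀ ⁻¹' {x | h x = l}))
    (fun l => 2 * (muX G).real {x | h x = l}) hsum hle (fun l => hS G t₀ _ (hh l))
  refine squeeze_zero (fun t => measureReal_nonneg) (fun t => measureReal_mono ?_) hT'
  intro p hp
  simp only [mem_iUnion]
  exact ⟨h (qt G t p), Or.inl ⟨rfl, fun h' => hp h'.symm⟩⟩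

end Pool.Agent.Run7.h96.TM
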